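import Mathlib
import Pool.Agent.W873.RS.Stm

set_option autoImplicit false

open MeasureTheory ProbabilityTheory Polynomial Filter Topology
open scoped ENNReal

namespace Pool.Agent.W406.RS.TON

open Pool.Agent.W873.RS

theorem main : Pool.Agent.W873.RS.TON := by
  intro Ω _ μ _ F ε hF
  have hG : Measurable (fun p : Ω × ℝ => F p.1 (p.2 + ε)) := by
    have h1 : Measurable (fun p : Ω × ℝ => (p.1, p.2 + ε)) :=
      measurable_fst.prodMk (measurable_snd.add_const ε)
    exact hF.comp h1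
  have hA : MeasurableSet {p : Ω × ℝ | F p.1 p.2 < 0} := by
    have h1 : Measurable (fun p : Ω × ℝ => F p.1 p.2) := hF
    exact measurableSet_lt h1 measurable_const
  have hB : MeasurableSet {p : Ω × ℝ | F p.1 (p.2 + ε) < 0} := measurableSet_lt hG measurable_const
  have hP : MeasurableSet {p : Ω × ℝ | 0 < p.2} := measurableSet_lt measurable_const measurable_snd
  have hS : MeasurableSet {p : Ω × ℝ | sc (F p.1 p.2) (F p.1 (p.2 + ε))} := by
    have h2 : {p : Ω × ℝ | sc (F p.1 p.2) (F p.1 (p.2 + ε))} =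
        ({p : Ω × ℝ | F p.1 p.2 < 0} \ {p : Ω × ℝ | F p.1 (p.2 + ε) < 0}) ∪
        ({p : Ω × ℝ | F p.1 (p.2 + ε) < 0} \ {p : Ω × ℝ | F p.1 p.2 < 0}) := by
      ext p
      simp only [sc, Set.mem_setOf_eq, Set.mem_union, Set.mem_diff]
      tauto
    rw [h2]
    exact (hA.diff hB).union (hB.diff hA)
  have hE : MeasurableSet {p : Ω × ℝ | 0 < p.2 ∧ sc (F p.1 p.2) (F p.1 (p.2 + ε))} := hP.inter hS
  refine ⟨measurable_measure_prodMk_left hE, ?_⟩
  have e1 : ∫⁻ ω, volume (chg (F ω) ε) ∂μ =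
      (μ.prod volume) {p : Ω × ℝ | 0 < p.2 ∧ sc (F p.1 p.2) (F p.1 (p.2 + ε))} := by
    rw [Measure.prod_apply hE]
    rfl
  rw [e1, Measure.prod_apply_symm hE, ← lintegral_indicator measurableSet_Ioi]
  refine lintegral_congr (fun x => ?_)
  by_cases hx : 0 < x
  · rw [Set.indicator_of_mem (Set.mem_Ioi.2 hx)]
    congr 1
    ext ω
    simp [hx]
  · rw [Set.indicator_of_notMem (by simpa using hx)]
    have : ((fun ω => (ω, x)) ⁻¹' {p : Ω × ℝ | 0 < p.2 ∧ sc (F p.1 p.2) (F p.1 (p.2 + ε))}) = ∅ := by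
      ext ω
      simp [hx]
    rw [this, measure_empty]

end Pool.Agent.W406.RS.TON
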